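import Mathlib

set_option autoImplicit false

namespace Pool.Agent.Q261.CE

open Finset

/-- reindexing -/
lemma prod_Icc (m : ℤ) (K : ℕ) (f : ℤ → ℝ) :
    ∏ j ∈ Finset.Icc (m + 1) (m + K), f j = ∏ k ∈ range K, f (m + 1 + k) := by
  symm
  refine prod_bij (fun k _ => m + 1 + (k : ℤ)) ?_ ?_ ?_ ?_
  · intro k hk
    rw [mem_range] at hk
    rw [mem_Icc]
    constructor
    · omega
    · omega
  · intro a _ b _ h
    simpa using h
  · intro j hj
    rw [mem_Icc] at hj
    refine ⟨(j - m - 1).toNat, ?_, ?_⟩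
    · rw [mem_range]; omega
    · omega
  · intro k _
    rfl

/-- the product of the distances to the other nodes -/
lemma prod_lower (k0 p : ℕ) (u : ℝ) (hu : ∀ k ∈ range (k0 + 1 + p), |u - k0| ≤ |u - k|) :
    |u - k0| * ((k0 + p).factorial / 4 ^ (k0 + p)) ≤ ∏ k ∈ range (k0 + 1 + p), |u - k| := by
  rw [prod_range_add, prod_range_succ]
  have h1 : (k0.factorial : ℝ) / 2 ^ k0 ≤ ∏ k ∈ range k0, |u - k| := by
    have e : (k0.factorial : ℝ) / 2 ^ k0 = ∏ k ∈ range k0, (((k0 - 1 - k : ℕ) : ℝ) + 1) / 2 := by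
      rw [prod_div_distrib, prod_const, card_range, Finset.prod_range_reflect (fun k => ((k : ℝ) + 1)) k0]
      congr 1
      rw [← Finset.prod_range_add_one_eq_factorial]
      push_cast
      rfl
    rw [e]
    refine prod_le_prod (fun k _ => by positivity) fun k hk => ?_
    rw [mem_range] at hk
    have h2 := hu k (by rw [mem_range]; omega)
    have h3 : |(k : ℝ) - k0| ≤ |u - k0| + |u - k| := by
      have := abs_sub_le (k : ℝ) u k0
      rw [abs_sub_comm (k : ℝ) u] at this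
      linarith
    have h4 : |(k : ℝ) - k0| = ((k0 - 1 - k : ℕ) : ℝ) + 1 := by
      rw [abs_sub_comm, abs_of_nonneg (by rw [sub_nonneg]; exact_mod_cast hk.le)]
      have : k0 = (k0 - 1 - k) + 1 + k := by omega
      have h5 : (k0 : ℝ) = ((k0 - 1 - k : ℕ) : ℝ) + 1 + k := by exact_mod_cast this
      linarith
    linarith
  have h2 : (p.factorial : ℝ) / 2 ^ p ≤ ∏ l ∈ range p, |u - ((k0 + 1 + l : ℕ) : ℝ)| := by
    have e : (p.factorial : ℝ) / 2 ^ p = ∏ l ∈ range p, ((l : ℝ) + 1) / 2 := by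
      rw [prod_div_distrib, prod_const, card_range]
      congr 1
      rw [← Finset.prod_range_add_one_eq_factorial]
      push_cast
      rfl
    rw [e]
    refine prod_le_prod (fun k _ => by positivity) fun l hl => ?_
    rw [mem_range] at hl
    have h2 := hu (k0 + 1 + l) (by rw [mem_range]; omega)
    have h3 : |((k0 + 1 + l : ℕ) : ℝ) - k0| ≤ |u - k0| + |u - ((k0 + 1 + l : ℕ) : ℝ)| := by
      have := abs_sub_le (((k0 + 1 + l : ℕ) : ℝ)) u k0
      rw [abs_sub_comm ((k0 + 1 + l : ℕ) : ℝ) u] at this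
      linarith
    have h4 : |((k0 + 1 + l : ℕ) : ℝ) - k0| = (l : ℝ) + 1 := by
      push_cast
      rw [show (k0 : ℝ) + 1 + l - k0 = l + 1 by ring, abs_of_nonneg (by positivity)]
    linarith
  have h3 : ((k0 + p).factorial : ℝ) / 4 ^ (k0 + p) ≤ (k0.factorial : ℝ) / 2 ^ k0 * ((p.factorial : ℝ) / 2 ^ p) := by
    have h4 : (k0 + p).choose k0 ≤ 2 ^ (k0 + p) := Nat.choose_le_two_pow _ _
    have h5 : (k0 + p).choose k0 * k0.factorial * p.factorial = (k0 + p).factorial := by
      rw [Nat.choose_symm_add]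
      have := Nat.add_choose_mul_factorial_mul_factorial k0 p
      exact this
    have h6 : ((k0 + p).factorial : ℝ) ≤ 2 ^ (k0 + p) * (k0.factorial * p.factorial) := by
      rw [← h5]
      push_cast
      rw [mul_assoc]
      refine mul_le_mul_of_nonneg_right ?_ (by positivity)
      exact_mod_cast h4
    rw [div_mul_div_comm, ← pow_add, div_le_div_iff₀ (by positivity) (by positivity)]
    have h7 : (4 : ℝ) ^ (k0 + p) = 2 ^ (k0 + p) * 2 ^ (k0 + p) := by
      rw [← mul_pow]; norm_num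
    rw [h7]
    have h8 : (0 : ℝ) < 2 ^ (k0 + p) := by positivity
    nlinarith
  have h0 : 0 ≤ |u - (k0 : ℝ)| := abs_nonneg _
  have h10 : 0 ≤ ∏ k ∈ range k0, |u - (k : ℝ)| := prod_nonneg fun _ _ => abs_nonneg _
  calc |u - k0| * ((k0 + p).factorial / 4 ^ (k0 + p))
      ≤ |u - k0| * ((k0.factorial : ℝ) / 2 ^ k0 * ((p.factorial : ℝ) / 2 ^ p)) := mul_le_mul_of_nonneg_left h3 h0
    _ ≤ |u - k0| * ((∏ k ∈ range k0, |u - k|) * ∏ l ∈ range p, |u - ((k0 + 1 + l : ℕ) : ℝ)|) := by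
        refine mul_le_mul_of_nonneg_left ?_ h0
        exact mul_le_mul h1 h2 (by positivity) h10
    _ = _ := by ring

lemma prod_lower' {K : ℕ} (hK : 1 ≤ K) (u : ℝ) : ∃ k0 < K,
    |u - (k0 : ℝ)| * ((K - 1).factorial / 4 ^ (K - 1)) ≤ ∏ k ∈ range K, |u - (k : ℝ)| := by
  obtain ⟨k0, hk0, hmin⟩ := Finset.exists_min_image (range K) (fun k : ℕ => |u - (k : ℝ)|)
    ⟨0, by rw [mem_range]; omega⟩
  rw [mem_range] at hk0
  refine ⟨k0, hk0, ?_⟩
  have e : K = k0 + 1 + (K - 1 - k0) := by omega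
  have e2 : K - 1 = k0 + (K - 1 - k0) := by omega
  have h := prod_lower k0 (K - 1 - k0) u (by rw [← e]; exact hmin)
  rw [← e, ← e2] at h
  exact h

lemma sin_le_node (u : ℝ) (j : ℤ) : |Real.sin (Real.pi * u)| ≤ Real.pi * |u - j| := by
  have h1 : |Real.sin (Real.pi * u)| = |Real.sin (Real.pi * (u - j))| := by
    have e : Real.pi * (u - j) = Real.pi * u - j * Real.pi := by ring
    rw [e, Real.sin_sub_int_mul_pi, abs_mul, abs_zpow, abs_neg, abs_one, one_zpow, one_mul]
  rw [h1]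
  have h2 := Real.abs_sin_le_abs (x := Real.pi * (u - j))
  rw [abs_mul, abs_of_pos Real.pi_pos] at h2
  exact h2

/-- **SinP** -/
theorem sinPA : ∀ ε : ℝ, 0 < ε → ∃ η0 : ℝ, 0 < η0 ∧ ∀ η : ℝ, 0 < η → η ≤ η0 → ∃ A : ℝ, ∀ a : ℝ, A ≤ a → ∀ (m : ℤ) (x : ℝ),
    |Real.sin (a * x)| ≤ Real.exp (ε * a) * ∏ j ∈ Finset.Icc (m + 1) (m + ⌈η * a⌉₊), |x - Real.pi * j / a| := by
  intro ε hε
  have hpi := Real.pi_pos
  obtain ⟨c, hc⟩ : ∃ c, c = 8 * Real.exp 1 / Real.pi := ⟨_, rfl⟩
  have hc0 : 1 ≤ c := by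
    rw [hc, le_div_iff₀ hpi]
    have := Real.pi_lt_four
    have := Real.add_one_le_exp (1 : ℝ)
    linarith
  refine ⟨min 1 (ε ^ 2 / (16 * c)), by positivity, fun η hη hη0 => ⟨max (4 / η) (8 / ε ^ 2) + 1, fun a ha m x => ?_⟩⟩
  have hη1 : η ≤ 1 := hη0.trans (min_le_left _ _)
  have hη2 : η ≤ ε ^ 2 / (16 * c) := hη0.trans (min_le_right _ _)
  have ha1 : 4 / η ≤ a := by linarith [le_max_left (4 / η) (8 / ε ^ 2)]
  have ha2 : 8 / ε ^ 2 ≤ a := by linarith [le_max_right (4 / η) (8 / ε ^ 2)]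
  have ha0 : 0 < a := lt_of_lt_of_le (by positivity) ha1
  have hηa : 4 ≤ η * a := by rw [div_le_iff₀ hη] at ha1; linarith
  obtain ⟨K, hK⟩ : ∃ K, K = ⌈η * a⌉₊ := ⟨_, rfl⟩
  rw [← hK]
  have hK1 : η * a ≤ K := by rw [hK]; exact Nat.le_ceil _
  have hK2 : (K : ℝ) < η * a + 1 := by rw [hK]; exact Nat.ceil_lt_add_one (by linarith)
  have hK3 : 1 ≤ K := by
    have : (1 : ℝ) ≤ K := by linarith
    exact_mod_cast this
  obtain ⟨n, hn⟩ : ∃ n, n = K - 1 := ⟨_, rfl⟩
  have hKn : K = n + 1 := by omega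
  have hn1 : (n : ℝ) ≤ η * a := by
    have : (K : ℝ) = n + 1 := by rw [hKn]; push_cast; ring
    linarith
  have hn2 : η * a / 2 ≤ n := by
    have : (K : ℝ) = n + 1 := by rw [hKn]; push_cast; ring
    linarith
  have hn0 : 0 < (n : ℝ) := by linarith
  -- rescale
  rw [prod_Icc]
  have e1 : ∀ k : ℕ, |x - Real.pi * ((m + 1 + (k : ℤ) : ℤ) : ℝ) / a| =
      Real.pi / a * |(a * x / Real.pi - m - 1) - k| := by
    intro k
    have : x - Real.pi * ((m + 1 + (k : ℤ) : ℤ) : ℝ) / a = Real.pi / a * ((a * x / Real.pi - m - 1) - k) := by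
      push_cast
      field_simp
      ring
    rw [this, abs_mul, abs_of_pos (by positivity : 0 < Real.pi / a)]
  rw [prod_congr rfl fun k _ => e1 k, prod_mul_distrib, prod_const, card_range]
  obtain ⟨k0, hk0, hlow⟩ := prod_lower' hK3 (a * x / Real.pi - m - 1)
  rw [← hn] at hlow
  have hsin : |Real.sin (a * x)| ≤ Real.pi * |(a * x / Real.pi - m - 1) - k0| := by
    have h := sin_le_node (a * x / Real.pi) (m + 1 + (k0 : ℤ))
    have e : Real.pi * (a * x / Real.pi) = a * x := by field_simp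
    rw [e] at h
    have e2 : a * x / Real.pi - ((m + 1 + (k0 : ℤ) : ℤ) : ℝ) = (a * x / Real.pi - m - 1) - k0 := by
      push_cast; ring
    rw [e2] at h
    exact h
  -- the constant
  have hfac : ((n : ℝ) / Real.exp 1) ^ n ≤ n.factorial := by
    have h := Real.pow_div_factorial_le_exp (n : ℝ) hn0.le n
    have h2 : Real.exp (n : ℝ) = Real.exp 1 ^ n := by
      rw [← Real.exp_nat_mul, mul_one]
    rw [div_pow, div_le_iff₀ (by positivity), mul_comm, ← h2]
    rw [div_le_iff₀ (by positivity)] at h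
    exact h
  obtain ⟨q, hq⟩ : ∃ q, q = η / c := ⟨_, rfl⟩
  have hq0 : 0 < q := by rw [hq]; positivity
  have hq1 : q ≤ 1 := by
    rw [hq, div_le_one (by linarith)]; linarith
  have hbase : q ≤ Real.pi / a * (n / Real.exp 1) / 4 := by
    rw [hq, hc]
    have : η / (8 * Real.exp 1 / Real.pi) = Real.pi * η / (8 * Real.exp 1) := by field_simp
    rw [this]
    have h2 : Real.pi / a * (n / Real.exp 1) / 4 = Real.pi * (2 * n / a) / (8 * Real.exp 1) := by
      field_simp; ring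
    rw [h2]
    refine div_le_div_of_nonneg_right ?_ (by positivity)
    refine mul_le_mul_of_nonneg_left ?_ hpi.le
    rw [le_div_iff₀ ha0]
    linarith
  have hqn : Real.exp (-(ε * a / 2)) ≤ q ^ n := by
    have h1 : Real.log (1 / q) ≤ 2 * Real.sqrt (1 / q) := by
      have h2 : 0 < 1 / q := by positivity
      have h3 : Real.log (1 / q) = 2 * Real.log (Real.sqrt (1 / q)) := by
        rw [Real.log_sqrt h2.le]; ring
      rw [h3]
      have := Real.log_le_sub_one_of_pos (Real.sqrt_pos.2 h2)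
      linarith
    have h2 : η * Real.sqrt (1 / q) ≤ ε / 4 := by
      have h3 : (η * Real.sqrt (1 / q)) ^ 2 ≤ (ε / 4) ^ 2 := by
        rw [mul_pow, Real.sq_sqrt (by positivity), hq]
        have e : η ^ 2 * (1 / (η / c)) = η * c := by field_simp
        rw [e]
        rw [le_div_iff₀ (by positivity)] at hη2
        nlinarith
      exact (pow_le_pow_iff_left₀ (by positivity) (by positivity) two_ne_zero).1 h3
    have h3 : Real.log q = -Real.log (1 / q) := by rw [one_div, Real.log_inv, neg_neg]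
    have h4 : 0 ≤ Real.log (1 / q) := Real.log_nonneg (by rw [le_div_iff₀ hq0]; linarith)
    rw [← Real.exp_log (pow_pos hq0 n), Real.log_pow, h3]
    refine Real.exp_le_exp.2 ?_
    have h5 : (n : ℝ) * Real.log (1 / q) ≤ η * a * Real.log (1 / q) := mul_le_mul_of_nonneg_right hn1 h4
    have h6 : η * a * Real.log (1 / q) ≤ η * a * (2 * Real.sqrt (1 / q)) := mul_le_mul_of_nonneg_left h1 (by positivity)
    have h7 : η * a * (2 * Real.sqrt (1 / q)) = 2 * a * (η * Real.sqrt (1 / q)) := by ring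
    have h8 : 2 * a * (η * Real.sqrt (1 / q)) ≤ 2 * a * (ε / 4) := mul_le_mul_of_nonneg_left h2 (by positivity)
    linarith
  have hgrow : a ≤ Real.exp (ε * a / 2) := by
    have h1 := Real.quadratic_le_exp_of_nonneg (x := ε * a / 2) (by positivity)
    have h2 : a ≤ (ε * a / 2) ^ 2 / 2 := by
      rw [div_le_iff₀ (by positivity)] at ha2
      nlinarith
    have : 0 < ε * a / 2 := by positivity
    linarith
  have hconst : a ≤ Real.exp (ε * a) * ((Real.pi / a) ^ n * ((n.factorial : ℝ) / 4 ^ n)) := by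
    have h1 : q ^ n ≤ (Real.pi / a) ^ n * ((n.factorial : ℝ) / 4 ^ n) := by
      calc q ^ n ≤ (Real.pi / a * (n / Real.exp 1) / 4) ^ n := pow_le_pow_left₀ hq0.le hbase n
        _ = (Real.pi / a) ^ n * (((n : ℝ) / Real.exp 1) ^ n / 4 ^ n) := by rw [div_pow, mul_pow]; ring
        _ ≤ _ := by
            refine mul_le_mul_of_nonneg_left ?_ (by positivity)
            exact div_le_div_of_nonneg_right hfac (by positivity)
    have h2 : Real.exp (ε * a) = Real.exp (ε * a / 2) * Real.exp (ε * a / 2) := by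
      rw [← Real.exp_add]; congr 1; ring
    have h3 : Real.exp (ε * a / 2) * Real.exp (-(ε * a / 2)) = 1 := by
      rw [← Real.exp_add, add_neg_cancel, Real.exp_zero]
    calc a ≤ Real.exp (ε * a / 2) * 1 := by linarith
      _ = Real.exp (ε * a / 2) * (Real.exp (ε * a / 2) * Real.exp (-(ε * a / 2))) := by rw [h3]
      _ = Real.exp (ε * a) * Real.exp (-(ε * a / 2)) := by rw [h2]; ring
      _ ≤ Real.exp (ε * a) * ((Real.pi / a) ^ n * ((n.factorial : ℝ) / 4 ^ n)) :=
          mul_le_mul_of_nonneg_left (hqn.trans h1) (Real.exp_pos _).le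
  have hd0 : 0 ≤ |(a * x / Real.pi - m - 1) - k0| := abs_nonneg _
  calc |Real.sin (a * x)| ≤ Real.pi * |(a * x / Real.pi - m - 1) - k0| := hsin
    _ = (Real.pi / a * |(a * x / Real.pi - m - 1) - k0|) * a := by field_simp
    _ ≤ (Real.pi / a * |(a * x / Real.pi - m - 1) - k0|) *
        (Real.exp (ε * a) * ((Real.pi / a) ^ n * ((n.factorial : ℝ) / 4 ^ n))) :=
        mul_le_mul_of_nonneg_left hconst (by positivity)
    _ = Real.exp (ε * a) * ((Real.pi / a) ^ (n + 1) *
        (|(a * x / Real.pi - m - 1) - k0| * ((n.factorial : ℝ) / 4 ^ n))) := by ring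
    _ ≤ Real.exp (ε * a) * ((Real.pi / a) ^ K * ∏ k ∈ range K, |(a * x / Real.pi - m - 1) - k|) := by
        rw [← hKn]
        refine mul_le_mul_of_nonneg_left (mul_le_mul_of_nonneg_left hlow (by positivity)) (Real.exp_pos _).le

end Pool.Agent.Q261.CE
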