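import Mathlib


set_option autoImplicit false

/-! # Project CE: the analytic part of T1 -/

open Polynomial Filter Topology Finset

namespace Pool.Agent.Q261.CE.T1

open Complex (I)

lemma sin_lo (z : ℂ) : (Real.exp (-z.im) - Real.exp z.im) / 2 ≤ ‖Complex.sin z‖ := by
  have h : Complex.sin z = (Complex.exp (-z * I) - Complex.exp (z * I)) * I / 2 := rfl
  rw [h, norm_div, norm_mul, Complex.norm_I, mul_one]
  have h1 := norm_sub_norm_le (Complex.exp (z * I)) (Complex.exp (-z * I))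
  rw [norm_sub_rev, Complex.norm_exp, Complex.norm_exp] at h1
  have e1 : (z * I).re = -z.im := by simp
  have e2 : (-z * I).re = z.im := by simp
  rw [e1, e2] at h1
  have e3 : ‖(2 : ℂ)‖ = 2 := by simp
  rw [e3]
  linarith

lemma sin_hi (z : ℂ) : ‖Complex.sin z‖ ≤ Real.exp |z.im| := by
  have h : Complex.sin z = (Complex.exp (-z * I) - Complex.exp (z * I)) * I / 2 := rfl
  rw [h, norm_div, norm_mul, Complex.norm_I, mul_one]
  have h1 := norm_sub_le (Complex.exp (-z * I)) (Complex.exp (z * I))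
  rw [Complex.norm_exp, Complex.norm_exp] at h1
  have e1 : (z * I).re = -z.im := by simp
  have e2 : (-z * I).re = z.im := by simp
  rw [e1, e2] at h1
  have e3 : ‖(2 : ℂ)‖ = 2 := by simp
  rw [e3]
  have h2 : Real.exp z.im ≤ Real.exp |z.im| := Real.exp_le_exp.2 (le_abs_self _)
  have h3 : Real.exp (-z.im) ≤ Real.exp |z.im| := Real.exp_le_exp.2 (neg_le_abs _)
  linarith

/-- the polynomial with the given simple roots -/
noncomputable def BB (S : Finset ℂ) : ℂ[X] := ∏ s ∈ S, (X - C s)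

lemma BB_eval (S : Finset ℂ) (w : ℂ) : (BB S).eval w = ∏ s ∈ S, (w - s) := by
  unfold BB
  rw [eval_prod]
  simp

lemma BB_norm {S : Finset ℂ} {R : ℝ} (hR : 0 ≤ R) (hS : ∀ s ∈ S, ‖s‖ ≤ R) (w : ℂ) :
    ‖(BB S).eval w‖ ≤ ((1 + R) * (1 + ‖w‖)) ^ S.card := by
  rw [BB_eval, norm_prod, ← Finset.prod_const]
  refine Finset.prod_le_prod (fun _ _ => norm_nonneg _) fun s hs => ?_
  have h1 := norm_sub_le w s
  have h2 := hS s hs
  have h3 := norm_nonneg w
  nlinarith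

lemma BB_deg (S : Finset ℂ) : (BB S).natDegree = S.card := by
  unfold BB
  rw [natDegree_prod_of_monic _ _ fun s _ => monic_X_sub_C s]
  simp

lemma BB_conj {S : Finset ℂ} (hS : ∀ s ∈ S, (starRingEnd ℂ) s ∈ S) (w : ℂ) :
    (BB S).eval ((starRingEnd ℂ) w) = (starRingEnd ℂ) ((BB S).eval w) := by
  rw [BB_eval, BB_eval, map_prod]
  refine Finset.prod_nbij' (fun s => (starRingEnd ℂ) s) (fun s => (starRingEnd ℂ) s) hS hS (fun s _ => Complex.conj_conj s)
    (fun s _ => Complex.conj_conj s) fun s _ => ?_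
  rw [map_sub, Complex.conj_conj]

/-- the functional equation -/
def Eqn (a : ℝ) (J : Finset ℤ) (p : ℂ[X]) (F : ℂ → ℂ) : Prop :=
  ∀ z : ℂ, (∏ j ∈ J, (z - ((Real.pi * j / a : ℝ) : ℂ))) * F z = Complex.sin (a * z) * p.eval z

lemma node_inj {a : ℝ} (ha : 0 < a) {i j : ℤ} (h : ((Real.pi * i / a : ℝ) : ℂ) = ((Real.pi * j / a : ℝ) : ℂ)) : i = j := by
  have h1 : Real.pi * i / a = Real.pi * j / a := Complex.ofReal_injective h
  have h2 := Real.pi_pos
  field_simp at h1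
  exact_mod_cast h1

lemma zero_of {a : ℝ} (ha : 0 < a) {J : Finset ℤ} {p : ℂ[X]} {F : ℂ → ℂ} (hF : Continuous F) (h : Eqn a J p F) {z : ℂ}
    (hz : p.eval z = 0) : F z = 0 := by
  classical
  by_cases hP : ∃ j ∈ J, z = ((Real.pi * j / a : ℝ) : ℂ)
  · obtain ⟨j, hj, hzj⟩ := hP
    obtain ⟨q, hq⟩ := (dvd_iff_isRoot (p := p) (a := z)).2 hz
    have h1 : ∀ w : ℂ, w ≠ z → (∏ i ∈ J.erase j, (w - ((Real.pi * i / a : ℝ) : ℂ))) * F w =
        Complex.sin (a * w) * q.eval w := by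
      intro w hw
      have h2 := h w
      rw [← Finset.mul_prod_erase J _ hj, ← hzj, hq, eval_mul, eval_sub, eval_X, eval_C] at h2
      have h3 : w - z ≠ 0 := sub_ne_zero.2 hw
      have h4 : (w - z) * ((∏ i ∈ J.erase j, (w - ((Real.pi * i / a : ℝ) : ℂ))) * F w) =
          (w - z) * (Complex.sin (a * w) * q.eval w) := by
        linear_combination h2
      exact mul_left_cancel₀ h3 h4
    have h5 : (fun w : ℂ => (∏ i ∈ J.erase j, (w - ((Real.pi * i / a : ℝ) : ℂ))) * F w) =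
        fun w => Complex.sin (a * w) * q.eval w := by
      refine Continuous.ext_on (dense_compl_singleton z) ?_ ?_ fun w hw => h1 w hw
      · fun_prop
      · have : Continuous fun w : ℂ => q.eval w := q.continuous
        fun_prop
    have h6 := congrFun h5 z
    have h7 : Complex.sin (a * z) = 0 := by
      rw [hzj]
      have h8 : (a : ℂ) * ((Real.pi * j / a : ℝ) : ℂ) = (j : ℂ) * Real.pi := by
        have : (a : ℂ) ≠ 0 := Complex.ofReal_ne_zero.2 ha.ne'
        push_cast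
        field_simp
      rw [h8]
      exact Complex.sin_int_mul_pi j
    rw [h7, zero_mul] at h6
    rcases mul_eq_zero.1 h6 with h9 | h9
    · exfalso
      rw [Finset.prod_eq_zero_iff] at h9
      obtain ⟨i, hi, h10⟩ := h9
      rw [hzj] at h10
      have := node_inj ha (sub_eq_zero.1 h10)
      exact (Finset.mem_erase.1 hi).1 this.symm
    · exact h9
  · push Not at hP
    have h1 := h z
    rw [hz, mul_zero] at h1
    rcases mul_eq_zero.1 h1 with h2 | h2
    · exfalso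
      rw [Finset.prod_eq_zero_iff] at h2
      obtain ⟨i, hi, h10⟩ := h2
      exact hP i hi (sub_eq_zero.1 h10)
    · exact h2

lemma far_bound {a : ℝ} {J : Finset ℤ} {p : ℂ[X]} {F : ℂ → ℂ} (h : Eqn a J p F) {z : ℂ} {q : ℝ} (hq : 0 ≤ q)
    (hd : ∀ j ∈ J, q ≤ ‖z - ((Real.pi * j / a : ℝ) : ℂ)‖) : q ^ J.card * ‖F z‖ ≤ ‖Complex.sin (a * z)‖ * ‖p.eval z‖ := by
  have h1 := congrArg norm (h z)
  rw [norm_mul, norm_mul, norm_prod] at h1
  rw [← h1]
  refine mul_le_mul_of_nonneg_right ?_ (norm_nonneg _)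
  calc q ^ J.card = ∏ j ∈ J, q := by rw [Finset.prod_const]
    _ ≤ _ := Finset.prod_le_prod (fun _ _ => hq) hd

lemma real_bound {a : ℝ} (ha : 0 < a) {J : Finset ℤ} {p : ℂ[X]} {F : ℂ → ℂ} (hF : Continuous F) (h : Eqn a J p F) {E : ℝ}
    (hE : ∀ x : ℝ, |Real.sin (a * x)| ≤ E * ∏ j ∈ J, |x - Real.pi * j / a|) (x : ℝ) : ‖F x‖ ≤ E * ‖p.eval (x : ℂ)‖ := by
  classical
  have hd : Dense ((J.image fun j : ℤ => Real.pi * j / a : Finset ℝ) : Set ℝ)ᶜ :=
    (Finset.countable_toSet _).dense_compl ℝ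
  have hcl : IsClosed {x : ℝ | ‖F x‖ ≤ E * ‖p.eval (x : ℂ)‖} := by
    have h1 : Continuous fun w : ℂ => p.eval w := p.continuous
    refine isClosed_le ?_ ?_
    · fun_prop
    · fun_prop
  have hsub : ((J.image fun j : ℤ => Real.pi * j / a : Finset ℝ) : Set ℝ)ᶜ ⊆ {x : ℝ | ‖F x‖ ≤ E * ‖p.eval (x : ℂ)‖} := by
    intro x hx
    have h1 := congrArg norm (h (x : ℂ))
    rw [norm_mul, norm_mul, norm_prod] at h1
    have h2 : ‖Complex.sin ((a : ℂ) * (x : ℂ))‖ = |Real.sin (a * x)| := by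
      rw [← Complex.ofReal_mul, ← Complex.ofReal_sin, Complex.norm_real, Real.norm_eq_abs]
    have h3 : ∏ j ∈ J, ‖(x : ℂ) - ((Real.pi * j / a : ℝ) : ℂ)‖ = ∏ j ∈ J, |x - Real.pi * j / a| := by
      refine Finset.prod_congr rfl fun j _ => ?_
      rw [← Complex.ofReal_sub, Complex.norm_real, Real.norm_eq_abs]
    rw [h2, h3] at h1
    have h4 : 0 < ∏ j ∈ J, |x - Real.pi * j / a| := by
      refine Finset.prod_pos fun j hj => ?_
      rw [abs_pos, sub_ne_zero]
      rintro rfl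
      refine hx ?_
      rw [Finset.mem_coe, Finset.mem_image]
      exact ⟨j, hj, rfl⟩
    have h5 := mul_le_mul_of_nonneg_right (hE x) (norm_nonneg (p.eval (x : ℂ)))
    rw [← h1] at h5
    rw [Set.mem_ofPred_eq]
    have h6 : (∏ j ∈ J, |x - Real.pi * j / a|) * ‖F x‖ ≤ (∏ j ∈ J, |x - Real.pi * j / a|) * (E * ‖p.eval (x : ℂ)‖) := by
      linarith
    exact le_of_mul_le_mul_left h6 h4
  have := hcl.closure_subset_iff.2 hsub
  rw [hd.closure_eq] at this
  exact this (Set.mem_univ x)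

lemma node {x0 a η : ℝ} (ha : 0 < a) (hη : 0 < η) (ha8 : 8 / η ≤ a) {j : ℤ}
    (hj : j ∈ Finset.Icc (⌊a * x0 / Real.pi⌋ + 1) (⌊a * x0 / Real.pi⌋ + ⌈η * a⌉₊)) :
    x0 < Real.pi * j / a ∧ Real.pi * j / a ≤ x0 + 4 * η := by
  have hpi := Real.pi_pos
  have hpi2 := Real.pi_lt_d2
  rw [Finset.mem_Icc] at hj
  obtain ⟨h1, h2⟩ := hj
  have h3 := Int.lt_floor_add_one (a * x0 / Real.pi)
  have h4 := Int.floor_le (a * x0 / Real.pi)
  have h5 := Nat.ceil_lt_add_one (show 0 ≤ η * a by positivity)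
  have h1' : ((⌊a * x0 / Real.pi⌋ : ℤ) : ℝ) + 1 ≤ j := by exact_mod_cast h1
  have h2' : (j : ℝ) ≤ ((⌊a * x0 / Real.pi⌋ : ℤ) : ℝ) + (⌈η * a⌉₊ : ℝ) := by exact_mod_cast h2
  have h6 : 8 ≤ a * η := by rwa [div_le_iff₀ hη] at ha8
  constructor
  · rw [lt_div_iff₀ ha]
    have h7 : a * x0 / Real.pi < j := by linarith
    rw [div_lt_iff₀ hpi] at h7
    linarith
  · rw [div_le_iff₀ ha]
    have h7 : (j : ℝ) ≤ a * x0 / Real.pi + (η * a + 1) := by linarith
    have h8 : Real.pi * j ≤ Real.pi * (a * x0 / Real.pi + (η * a + 1)) := mul_le_mul_of_nonneg_left h7 hpi.le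
    have h9 : Real.pi * (a * x0 / Real.pi + (η * a + 1)) = a * x0 + Real.pi * (η * a + 1) := by
      field_simp
    nlinarith

end Pool.Agent.Q261.CE.T1
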