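import Mathlib
import Pool.Agent.Q261.CE.T1a

set_option autoImplicit false

/-! # Project CE: the analytic part of T1, continued -/

open Polynomial Filter Topology Finset

namespace Pool.Agent.Q261.CE.T1

open Complex (I)

lemma decay {q X Y : ℝ} {K d : ℕ} (hq : 0 < q) (hK : d + 1 ≤ K) (h : q ^ K * X ≤ Y * q ^ d) :
    q ^ (K - (d + 1)) * (q * X) ≤ Y := by
  have e : q ^ K = q ^ d * (q ^ (K - (d + 1)) * q) := by
    rw [← pow_succ, ← pow_add]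
    congr 1
    omega
  rw [e] at h
  have hd : 0 < q ^ d := by positivity
  have h2 : q ^ d * (q ^ (K - (d + 1)) * (q * X)) ≤ q ^ d * Y := by
    linarith
  exact le_of_mul_le_mul_left h2 hd

lemma lin {x0 y0 : ℝ} (hy : 0 < y0) {u : ℂ} (hu : ‖u‖ = 1) : ∃ α β : ℂ, α + β * (x0 - y0 * I) = u ∧
    α + β * (x0 + y0 * I) = 1 ∧ ∀ w : ℂ, ‖α + β * w‖ ≤ (1 + (‖(x0 : ℂ) + y0 * I‖ + 1) / y0) * (1 + ‖w‖) := by
  have hy' : (y0 : ℂ) ≠ 0 := Complex.ofReal_ne_zero.2 hy.ne'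
  have hI : I ≠ 0 := Complex.I_ne_zero
  refine ⟨1 - (1 - u) / (2 * y0 * I) * (x0 + y0 * I), (1 - u) / (2 * y0 * I), ?_, by ring, fun w => ?_⟩
  · field_simp
    ring
  · have h1 : ‖(1 - u) / (2 * y0 * I)‖ ≤ 1 / y0 := by
      rw [norm_div, norm_mul, norm_mul, Complex.norm_I, Complex.norm_real, Real.norm_eq_abs, abs_of_pos hy, mul_one]
      have e3 : ‖(2 : ℂ)‖ = 2 := by simp
      rw [e3, div_le_div_iff₀ (by positivity) hy]
      have h2 := norm_sub_le 1 u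
      rw [norm_one, hu] at h2
      nlinarith
    have h2 : 1 - (1 - u) / (2 * y0 * I) * (x0 + y0 * I) + (1 - u) / (2 * y0 * I) * w =
        1 + (1 - u) / (2 * y0 * I) * (w - (x0 + y0 * I)) := by ring
    rw [h2]
    have h3 := norm_add_le 1 ((1 - u) / (2 * y0 * I) * (w - (x0 + y0 * I)))
    rw [norm_one, norm_mul] at h3
    have h4 := norm_sub_le w ((x0 : ℂ) + y0 * I)
    have h5 : ‖(1 - u) / (2 * y0 * I)‖ * ‖w - (x0 + y0 * I)‖ ≤ 1 / y0 * (‖w‖ + ‖(x0 : ℂ) + y0 * I‖) :=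
      mul_le_mul h1 h4 (norm_nonneg _) (by positivity)
    have h6 : (0:ℝ) ≤ 1 / y0 := by positivity
    have h7 := norm_nonneg w
    have h8 := norm_nonneg ((x0 : ℂ) + y0 * I)
    have e : (1 + (‖(x0 : ℂ) + y0 * I‖ + 1) / y0) * (1 + ‖w‖) =
        1 + ‖w‖ + 1 / y0 * ((‖(x0 : ℂ) + y0 * I‖ + 1) * (1 + ‖w‖)) := by
      field_simp
    rw [e]
    have h9 : 1 / y0 * (‖w‖ + ‖(x0 : ℂ) + y0 * I‖) ≤ 1 / y0 * ((‖(x0 : ℂ) + y0 * I‖ + 1) * (1 + ‖w‖)) := by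
      refine mul_le_mul_of_nonneg_left ?_ h6
      nlinarith [mul_nonneg h7 h8]
    linarith

/-- bound on the line -/
lemma line_bd {x0 a E C2 : ℝ} {d : ℕ} {J : Finset ℤ} {p : ℂ[X]} {F : ℂ → ℂ} (hC2 : 0 ≤ C2) (h : Eqn a J p F)
    (hE1 : 1 ≤ E) (hreal : ∀ x : ℝ, ‖F x‖ ≤ E * ‖p.eval (x : ℂ)‖)
    (hJ : ∀ j ∈ J, |Real.pi * j / a - x0| ≤ 1) (hK : d + 1 ≤ J.card)
    (hp : ∀ w : ℂ, ‖p.eval w‖ ≤ C2 * (1 + ‖w‖) ^ d) (x : ℝ) :
    ‖F x‖ ^ 2 ≤ (17 * (C2 * (5 + |x0|) ^ d) ^ 2 + 8 * (C2 * (4 * (1 + |x0|)) ^ d) ^ 2) * E ^ 2 / (1 + (x - x0) ^ 2) := by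
  have hx0 := abs_nonneg x0
  have hxx : |x| ≤ |x0| + |x - x0| := by
    have := abs_add_le x0 (x - x0)
    rwa [show x0 + (x - x0) = x by ring] at this
  rw [le_div_iff₀ (by positivity)]
  obtain ⟨M, hM⟩ : ∃ M, M = C2 * (5 + |x0|) ^ d := ⟨_, rfl⟩
  obtain ⟨M', hM'⟩ : ∃ M', M' = C2 * (4 * (1 + |x0|)) ^ d := ⟨_, rfl⟩
  rw [← hM, ← hM']
  have hM0 : 0 ≤ M := by rw [hM]; positivity
  have hM'0 : 0 ≤ M' := by rw [hM']; positivity
  have hF0 := norm_nonneg (F x)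
  have hpx := hp (x : ℂ)
  rw [Complex.norm_real, Real.norm_eq_abs] at hpx
  have hsq : (x - x0) ^ 2 = |x - x0| ^ 2 := (sq_abs _).symm
  rw [hsq]
  rcases le_total |x - x0| 4 with hx | hx
  · have h1 : ‖p.eval (x : ℂ)‖ ≤ M := by
      refine hpx.trans ?_
      rw [hM]
      refine mul_le_mul_of_nonneg_left ?_ hC2
      refine pow_le_pow_left₀ (by positivity) ?_ d
      linarith
    have h2 : ‖F x‖ ≤ E * M := (hreal x).trans (mul_le_mul_of_nonneg_left h1 (by linarith))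
    have h3 : ‖F x‖ ^ 2 ≤ (E * M) ^ 2 := pow_le_pow_left₀ hF0 h2 2
    have h4 : |x - x0| ^ 2 ≤ 4 ^ 2 := pow_le_pow_left₀ (abs_nonneg _) hx 2
    calc ‖F x‖ ^ 2 * (1 + |x - x0| ^ 2) ≤ (E * M) ^ 2 * 17 :=
          mul_le_mul h3 (by linarith) (by positivity) (by positivity)
      _ = 17 * M ^ 2 * E ^ 2 := by ring
      _ ≤ (17 * M ^ 2 + 8 * M' ^ 2) * E ^ 2 := by
          refine mul_le_mul_of_nonneg_right ?_ (by positivity)
          have : 0 ≤ 8 * M' ^ 2 := by positivity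
          linarith
  · have hr : 0 < |x - x0| := by linarith
    have h1 := far_bound h (z := (x : ℂ)) (q := |x - x0| / 2) (by positivity) (fun j hj => by
      rw [← Complex.ofReal_sub, Complex.norm_real, Real.norm_eq_abs]
      have h2 := hJ j hj
      have h3 := abs_sub_le x (Real.pi * j / a) x0
      linarith)
    have h2 : ‖Complex.sin ((a : ℂ) * (x : ℂ))‖ ≤ 1 := by
      rw [← Complex.ofReal_mul, ← Complex.ofReal_sin, Complex.norm_real, Real.norm_eq_abs]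
      exact Real.abs_sin_le_one _
    have h3 : (|x - x0| / 2) ^ J.card * ‖F x‖ ≤ M' * (|x - x0| / 2) ^ d := by
      calc (|x - x0| / 2) ^ J.card * ‖F x‖ ≤ 1 * ‖p.eval (x : ℂ)‖ :=
            h1.trans (mul_le_mul_of_nonneg_right h2 (norm_nonneg _))
        _ ≤ C2 * (1 + |x|) ^ d := by rw [one_mul]; exact hpx
        _ ≤ C2 * (4 * (1 + |x0|) * (|x - x0| / 2)) ^ d := by
            refine mul_le_mul_of_nonneg_left ?_ hC2
            refine pow_le_pow_left₀ (by positivity) ?_ d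
            nlinarith
        _ = M' * (|x - x0| / 2) ^ d := by rw [hM', mul_pow]; ring
    have h4 := decay (by positivity) hK h3
    have h5 : |x - x0| / 2 * ‖F x‖ ≤ M' := by
      have h6 : 1 ≤ (|x - x0| / 2) ^ (J.card - (d + 1)) := one_le_pow₀ (by linarith)
      have h7 : 0 ≤ |x - x0| / 2 * ‖F x‖ := by positivity
      nlinarith
    have h6 : (|x - x0| / 2 * ‖F x‖) ^ 2 ≤ M' ^ 2 := pow_le_pow_left₀ (by positivity) h5 2
    have h7 : ‖F x‖ ^ 2 * (1 + |x - x0| ^ 2) ≤ 8 * (|x - x0| / 2 * ‖F x‖) ^ 2 := by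
      have e : 8 * (|x - x0| / 2 * ‖F x‖) ^ 2 = ‖F x‖ ^ 2 * (2 * |x - x0| ^ 2) := by ring
      rw [e]
      refine mul_le_mul_of_nonneg_left ?_ (by positivity)
      nlinarith
    have hE2 : 1 ≤ E ^ 2 := one_le_pow₀ hE1
    have h8 : 8 * M' ^ 2 ≤ (17 * M ^ 2 + 8 * M' ^ 2) * E ^ 2 := by
      have h9 : 0 ≤ 17 * M ^ 2 := by positivity
      have h10 : 0 ≤ 8 * M' ^ 2 := by positivity
      nlinarith
    linarith

/-- bound far away -/
lemma tail_bd {x0 a C2 η R : ℝ} {d : ℕ} {J : Finset ℤ} {p : ℂ[X]} {F : ℂ → ℂ} (ha : 0 < a) (hη : 0 < η) (hC2 : 0 ≤ C2)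
    (h : Eqn a J p F) (hR1 : 2 * |x0| + 8 ≤ R) (hR2 : 4 * Real.exp (4 / η) ≤ R)
    (hJ : ∀ j ∈ J, |Real.pi * j / a - x0| ≤ 1) (hK : d + 1 ≤ J.card) (hKa : η * a ≤ J.card)
    (hp : ∀ w : ℂ, ‖p.eval w‖ ≤ C2 * (1 + ‖w‖) ^ d) (z : ℂ) (hz : |z.im| ≤ 1) (hzR : R ≤ ‖z‖) :
    ‖F z‖ ^ 2 ≤ (4 * (C2 * 8 ^ d * (4 * Real.exp (4 / η * (d + 1)))) ^ 2) * Real.exp (-6 * a) / (1 + ‖z‖) ^ 2 := by
  have hx0 := abs_nonneg x0
  have hr : 8 ≤ ‖z‖ := by linarith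
  have hr0 : 0 < ‖z‖ := by linarith
  obtain ⟨r, hrdef⟩ : ∃ r, r = ‖z‖ := ⟨_, rfl⟩
  have h1 := far_bound h (z := z) (q := ‖z‖ / 4) (by positivity) (fun j hj => by
    have h2 := hJ j hj
    have h3 : |Real.pi * j / a| ≤ |x0| + 1 := by
      have := abs_add_le x0 (Real.pi * j / a - x0)
      rw [show x0 + (Real.pi * j / a - x0) = Real.pi * j / a by ring] at this
      linarith
    have h4 := norm_sub_norm_le z ((Real.pi * j / a : ℝ) : ℂ)
    rw [Complex.norm_real, Real.norm_eq_abs] at h4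
    linarith)
  have h2 : ‖Complex.sin ((a : ℂ) * z)‖ ≤ Real.exp a := by
    refine (sin_hi _).trans (Real.exp_le_exp.2 ?_)
    have e : ((a : ℂ) * z).im = a * z.im := by simp
    rw [e, abs_mul, abs_of_pos ha]
    nlinarith [abs_nonneg z.im]
  have hpz := hp z
  rw [← hrdef] at h1 hpz hr hr0 hzR ⊢
  have h3 : (r / 4) ^ J.card * ‖F z‖ ≤ (Real.exp a * (C2 * 8 ^ d)) * (r / 4) ^ d := by
    calc (r / 4) ^ J.card * ‖F z‖ ≤ Real.exp a * ‖p.eval z‖ :=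
          h1.trans (mul_le_mul_of_nonneg_right h2 (norm_nonneg _))
      _ ≤ Real.exp a * (C2 * (1 + r) ^ d) := mul_le_mul_of_nonneg_left hpz (Real.exp_nonneg _)
      _ ≤ Real.exp a * (C2 * (8 * (r / 4)) ^ d) := by
          refine mul_le_mul_of_nonneg_left (mul_le_mul_of_nonneg_left ?_ hC2) (Real.exp_nonneg _)
          refine pow_le_pow_left₀ (by positivity) ?_ d
          linarith
      _ = _ := by rw [mul_pow]; ring
  have h4 := decay (by positivity) hK h3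
  have h5 : Real.exp (4 * a - 4 / η * (d + 1)) ≤ (r / 4) ^ (J.card - (d + 1)) := by
    have h6 : Real.exp (4 / η) ≤ r / 4 := by linarith
    calc Real.exp (4 * a - 4 / η * (d + 1)) ≤ Real.exp (((J.card - (d + 1) : ℕ) : ℝ) * (4 / η)) := by
          refine Real.exp_le_exp.2 ?_
          rw [Nat.cast_sub hK]
          push_cast
          have h7 : 4 * a = 4 / η * (η * a) := by field_simp
          have h8 : 4 / η * (η * a) ≤ 4 / η * (J.card : ℝ) := mul_le_mul_of_nonneg_left hKa (by positivity)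
          nlinarith
      _ = (Real.exp (4 / η)) ^ (J.card - (d + 1)) := by rw [Real.exp_nat_mul]
      _ ≤ _ := pow_le_pow_left₀ (Real.exp_nonneg _) h6 _
  obtain ⟨M, hM⟩ : ∃ M, M = C2 * 8 ^ d * (4 * Real.exp (4 / η * (d + 1))) := ⟨_, rfl⟩
  rw [← hM]
  have hM0 : 0 ≤ M := by rw [hM]; positivity
  have hF0 := norm_nonneg (F z)
  have h6 : r * ‖F z‖ ≤ M * Real.exp (-3 * a) := by
    have h7 : Real.exp (4 * a - 4 / η * (d + 1)) * (r / 4 * ‖F z‖) ≤ Real.exp a * (C2 * 8 ^ d) :=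
      (mul_le_mul_of_nonneg_right h5 (by positivity)).trans h4
    have h8 : r * ‖F z‖ = 4 * Real.exp (-(4 * a - 4 / η * (d + 1))) *
        (Real.exp (4 * a - 4 / η * (d + 1)) * (r / 4 * ‖F z‖)) := by
      have : Real.exp (-(4 * a - 4 / η * (d + 1))) * Real.exp (4 * a - 4 / η * (d + 1)) = 1 := by
        rw [← Real.exp_add]; simp
      linear_combination (-(r * ‖F z‖)) * this
    rw [h8]
    refine (mul_le_mul_of_nonneg_left h7 (by positivity)).trans (le_of_eq ?_)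
    have h9 : Real.exp (-(4 * a - 4 / η * (d + 1))) * Real.exp a = Real.exp (4 / η * (d + 1)) * Real.exp (-3 * a) := by
      rw [← Real.exp_add, ← Real.exp_add]
      congr 1
      ring
    rw [hM]
    linear_combination (4 * (C2 * 8 ^ d)) * h9
  rw [le_div_iff₀ (by positivity)]
  have h7 : (r * ‖F z‖) ^ 2 ≤ (M * Real.exp (-3 * a)) ^ 2 := pow_le_pow_left₀ (by positivity) h6 2
  have h8 : (M * Real.exp (-3 * a)) ^ 2 = M ^ 2 * Real.exp (-6 * a) := by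
    rw [mul_pow, ← Real.exp_nat_mul]
    congr 2
    push_cast
    ring
  rw [h8] at h7
  have h9 : ‖F z‖ ^ 2 * (1 + r) ^ 2 ≤ 4 * (r * ‖F z‖) ^ 2 := by
    have e : 4 * (r * ‖F z‖) ^ 2 = ‖F z‖ ^ 2 * (4 * r ^ 2) := by ring
    rw [e]
    refine mul_le_mul_of_nonneg_left ?_ (by positivity)
    nlinarith
  linarith

end Pool.Agent.Q261.CE.T1
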