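import Mathlib
import Pool.Agent.Q261.CE.T1b

set_option autoImplicit false

/-! # Project CE: the analytic part of T1, assembly -/

open Polynomial Filter Topology Finset

namespace Pool.Agent.Q261.CE.T1

open Complex (I)

/-- the statement of `S_SinP` -/
def Sn : Prop := ∀ ε : ℝ, 0 < ε → ∃ η0 : ℝ, 0 < η0 ∧ ∀ η : ℝ, 0 < η → η ≤ η0 → ∃ A : ℝ, ∀ a : ℝ, A ≤ a → ∀ (m : ℤ) (x : ℝ),
  |Real.sin (a * x)| ≤ Real.exp (ε * a) * ∏ j ∈ Finset.Icc (m + 1) (m + ⌈η * a⌉₊), |x - Real.pi * j / a|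

lemma conj_z0 (x0 y0 : ℝ) : (starRingEnd ℂ) ((x0 : ℂ) - y0 * I) = x0 + y0 * I := by
  rw [map_sub, map_mul, Complex.conj_ofReal, Complex.conj_ofReal, Complex.conj_I]
  ring

lemma conj_z0' (x0 y0 : ℝ) : (starRingEnd ℂ) ((x0 : ℂ) + y0 * I) = x0 - y0 * I := by
  rw [map_add, map_mul, Complex.conj_ofReal, Complex.conj_ofReal, Complex.conj_I]
  ring

/-- the value at the zero -/
lemma val {x0 y0 a : ℝ} (hy : 0 < y0) {J : Finset ℤ} {S : Finset ℂ} (hSc : ∀ s ∈ S, (starRingEnd ℂ) s ∈ S)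
    {A u α β : ℂ} (hAdef : A = Complex.sin (a * (x0 - y0 * I)) * (BB S).eval ((x0 : ℂ) - y0 * I) /
      ∏ j ∈ J, ((x0 : ℂ) - y0 * I - ((Real.pi * j / a : ℝ) : ℂ))) (hu : A ≠ 0) (hudef : u = -(starRingEnd ℂ) A / A)
    (hα : α + β * (x0 - y0 * I) = u) (hβ : α + β * (x0 + y0 * I) = 1) {F : ℂ → ℂ}
    (hF : Eqn a J (BB S * (C β * X + C α)) F) :
    (F (x0 - y0 * I) * (starRingEnd ℂ) (F (x0 + y0 * I))).re = -‖A‖ ^ 2 := by
  have hPne : ∀ w : ℂ, w.im ≠ 0 → ∏ j ∈ J, (w - ((Real.pi * j / a : ℝ) : ℂ)) ≠ 0 := by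
    intro w hw h
    rw [Finset.prod_eq_zero_iff] at h
    obtain ⟨j, _, hj⟩ := h
    have := congrArg Complex.im hj
    rw [Complex.sub_im, Complex.ofReal_im, Complex.zero_im, sub_zero] at this
    exact hw this
  have him : ((x0 : ℂ) - y0 * I).im ≠ 0 := by
    simp [hy.ne']
  have him' : ((x0 : ℂ) + y0 * I).im ≠ 0 := by
    simp [hy.ne']
  have hP0 := hPne _ him
  have h1 := hF (x0 - y0 * I)
  have h2 := hF (x0 + y0 * I)
  have e1 : (BB S * (C β * X + C α)).eval ((x0 : ℂ) - y0 * I) = (BB S).eval ((x0 : ℂ) - y0 * I) * u := by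
    rw [eval_mul, eval_add, eval_mul, eval_C, eval_C, eval_X, ← hα]
    ring
  have e2 : (BB S * (C β * X + C α)).eval ((x0 : ℂ) + y0 * I) = (BB S).eval ((x0 : ℂ) + y0 * I) := by
    rw [eval_mul, eval_add, eval_mul, eval_C, eval_C, eval_X]
    have : β * (x0 + y0 * I) + α = 1 := by rw [← hβ]; ring
    rw [this, mul_one]
  rw [e1] at h1
  rw [e2] at h2
  have hFz : F (x0 - y0 * I) = A * u := by
    have : (∏ j ∈ J, ((x0 : ℂ) - y0 * I - ((Real.pi * j / a : ℝ) : ℂ))) * F (x0 - y0 * I) =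
        (∏ j ∈ J, ((x0 : ℂ) - y0 * I - ((Real.pi * j / a : ℝ) : ℂ))) * (A * u) := by
      rw [h1, hAdef]
      field_simp
    exact mul_left_cancel₀ hP0 this
  have hFz' : F (x0 + y0 * I) = (starRingEnd ℂ) A := by
    have c1 : ∏ j ∈ J, ((x0 : ℂ) + y0 * I - ((Real.pi * j / a : ℝ) : ℂ)) =
        (starRingEnd ℂ) (∏ j ∈ J, ((x0 : ℂ) - y0 * I - ((Real.pi * j / a : ℝ) : ℂ))) := by
      rw [map_prod]
      refine Finset.prod_congr rfl fun j _ => ?_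
      rw [map_sub, conj_z0, Complex.conj_ofReal]
    have c2 : Complex.sin (a * (x0 + y0 * I)) = (starRingEnd ℂ) (Complex.sin (a * (x0 - y0 * I))) := by
      rw [← Complex.sin_conj, map_mul, conj_z0, Complex.conj_ofReal]
    have c3 : (BB S).eval ((x0 : ℂ) + y0 * I) = (starRingEnd ℂ) ((BB S).eval ((x0 : ℂ) - y0 * I)) := by
      rw [← BB_conj hSc, conj_z0]
    have : (∏ j ∈ J, ((x0 : ℂ) + y0 * I - ((Real.pi * j / a : ℝ) : ℂ))) * F (x0 + y0 * I) =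
        (∏ j ∈ J, ((x0 : ℂ) + y0 * I - ((Real.pi * j / a : ℝ) : ℂ))) * (starRingEnd ℂ) A := by
      rw [h2, c1, c2, c3, hAdef, ← map_mul, ← map_mul]
      congr 1
      field_simp
    exact mul_left_cancel₀ (hPne _ him') this
  rw [hFz, hFz', Complex.conj_conj, hudef]
  have : A * (-(starRingEnd ℂ) A / A) * A = -((‖A‖ ^ 2 : ℝ) : ℂ) := by
    rw [← Complex.normSq_eq_norm_sq, ← Complex.mul_conj]
    field_simp
  rw [this, Complex.neg_re, Complex.ofReal_re]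

theorem core (hS : Sn) {x0 y0 ε : ℝ} (hy : 0 < y0) (hy1 : y0 ≤ 1) (hε : 0 < ε) (n : ℝ → ℕ)
    (hn : Tendsto (fun a : ℝ => (n a : ℝ) / a) atTop atTop) (Z : Set ℂ) (hZc : ∀ z ∈ Z, (starRingEnd ℂ) z ∈ Z)
    (hZf : ∀ T : ℝ, {z : ℂ | z ∈ Z ∧ ‖z‖ ≤ T}.Finite) :
    ∃ R0 : ℝ, 0 < R0 ∧ ∀ R : ℝ, R0 ≤ R → ∃ K : ℝ, 0 < K ∧ ∀ᶠ a : ℝ in atTop, 0 < a ∧ ∃ (J : Finset ℤ) (p : ℂ[X]),
      (∀ j ∈ J, j.natAbs ≤ n a) ∧ p.natDegree < J.card ∧ ∀ F : ℂ → ℂ, Continuous F → Eqn a J p F →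
        (∀ z ∈ Z, ‖z‖ ≤ R → z ≠ x0 - y0 * I → z ≠ x0 + y0 * I → F z = 0) ∧
        (F (x0 - y0 * I) * (starRingEnd ℂ) (F (x0 + y0 * I))).re ≤ -Real.exp ((2 * y0 - ε / 2) * a) ∧
        (∀ x : ℝ, ‖F x‖ ^ 2 ≤ K * Real.exp (ε / 4 * a) / (1 + (x - x0) ^ 2)) ∧
        (∀ z : ℂ, |z.im| ≤ 1 → R ≤ ‖z‖ → ‖F z‖ ^ 2 ≤ K * Real.exp (-6 * a) / (1 + ‖z‖) ^ 2) := by
  classical
  obtain ⟨η0, hη0, hS1⟩ := hS (ε / 8) (by positivity)
  obtain ⟨η, hη, hη1, hη2, hη3⟩ : ∃ η : ℝ, 0 < η ∧ η ≤ η0 ∧ η ≤ 1 / 4 ∧ η ≤ ε / 128 :=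
    ⟨min η0 (min (1 / 4) (ε / 128)), by positivity, min_le_left _ _, (min_le_right _ _).trans (min_le_left _ _),
      (min_le_right _ _).trans (min_le_right _ _)⟩
  obtain ⟨A0, hA0⟩ := hS1 η hη hη1
  have hx0 := abs_nonneg x0
  have hexp1 : 1 ≤ Real.exp (4 / η) := Real.one_le_exp (by positivity)
  refine ⟨(2 * |x0| + 8) * (4 * Real.exp (4 / η)), by positivity, fun R hR => ?_⟩
  have hR1 : 2 * |x0| + 8 ≤ R := by nlinarith
  have hR2 : 4 * Real.exp (4 / η) ≤ R := by nlinarith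
  have hR0 : 0 < R := by linarith
  obtain ⟨S, hSdef⟩ : ∃ S : Finset ℂ, ∀ z, z ∈ S ↔ (z ∈ Z ∧ ‖z‖ ≤ R) ∧ (z ≠ x0 - y0 * I ∧ z ≠ x0 + y0 * I) :=
    ⟨(hZf R).toFinset.filter (fun z => z ≠ x0 - y0 * I ∧ z ≠ x0 + y0 * I), fun z => by
      rw [Finset.mem_filter, Set.Finite.mem_toFinset]
      rfl⟩
  have hSR : ∀ s ∈ S, ‖s‖ ≤ R := fun s hs => ((hSdef s).1 hs).1.2
  have hSc : ∀ s ∈ S, (starRingEnd ℂ) s ∈ S := by
    intro s hs
    obtain ⟨⟨h1, h2⟩, h3, h4⟩ := (hSdef s).1 hs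
    refine (hSdef _).2 ⟨⟨hZc s h1, by rwa [RCLike.norm_conj]⟩, fun h => h4 ?_, fun h => h3 ?_⟩
    · rw [← Complex.conj_conj s, h, conj_z0]
    · rw [← Complex.conj_conj s, h, conj_z0']
  have hB0 : 0 < ‖(BB S).eval ((x0 : ℂ) - y0 * I)‖ := by
    rw [norm_pos_iff, BB_eval, Finset.prod_ne_zero_iff]
    intro s hs h
    exact ((hSdef s).1 hs).2.1 (sub_eq_zero.1 h).symm
  obtain ⟨b0, hb0⟩ : ∃ b0, b0 = ‖(BB S).eval ((x0 : ℂ) - y0 * I)‖ := ⟨_, rfl⟩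
  rw [← hb0] at hB0
  obtain ⟨C1, hC1⟩ : ∃ C1, C1 = 1 + (‖(x0 : ℂ) + y0 * I‖ + 1) / y0 := ⟨_, rfl⟩
  have hC10 : 0 < C1 := by rw [hC1]; positivity
  obtain ⟨C2, hC2⟩ : ∃ C2, C2 = C1 * (1 + R) ^ S.card := ⟨_, rfl⟩
  have hC20 : 0 < C2 := by rw [hC2]; positivity
  obtain ⟨d, hd⟩ : ∃ d, d = S.card + 1 := ⟨_, rfl⟩
  obtain ⟨K1, hK1⟩ : ∃ K1, K1 = 17 * (C2 * (5 + |x0|) ^ d) ^ 2 + 8 * (C2 * (4 * (1 + |x0|)) ^ d) ^ 2 := ⟨_, rfl⟩
  obtain ⟨K2, hK2⟩ : ∃ K2, K2 = 4 * (C2 * 8 ^ d * (4 * Real.exp (4 / η * (d + 1)))) ^ 2 := ⟨_, rfl⟩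
  have hK10 : 0 < K1 := by rw [hK1]; positivity
  have hK20 : 0 < K2 := by rw [hK2]; positivity
  refine ⟨K1 + K2, by positivity, ?_⟩
  filter_upwards [eventually_ge_atTop A0, eventually_ge_atTop (8 / η), eventually_ge_atTop 1,
    eventually_ge_atTop (((d : ℝ) + 2) / η), eventually_ge_atTop (1 / y0),
    eventually_ge_atTop ((4 * Real.exp (1 / 2) / b0) * (8 / ε)), hn.eventually_ge_atTop (|x0| + 1)] with a g1 g2 g3 g4 g5 g6 g7
  have ha : 0 < a := by linarith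
  refine ⟨ha, ?_⟩
  obtain ⟨J, hJdef⟩ : ∃ J, J = Finset.Icc (⌊a * x0 / Real.pi⌋ + 1) (⌊a * x0 / Real.pi⌋ + ⌈η * a⌉₊) := ⟨_, rfl⟩
  have hJcard : J.card = ⌈η * a⌉₊ := by
    rw [hJdef, Int.card_Icc]
    omega
  have hnode : ∀ j ∈ J, x0 < Real.pi * j / a ∧ Real.pi * j / a ≤ x0 + 4 * η := fun j hj => node ha hη g2 (hJdef ▸ hj)
  have hnode1 : ∀ j ∈ J, |Real.pi * j / a - x0| ≤ 1 := by
    intro j hj
    obtain ⟨h1, h2⟩ := hnode j hj
    rw [abs_le]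
    constructor <;> linarith
  have hKa : η * a ≤ J.card := by rw [hJcard]; exact Nat.le_ceil _
  have hdK : d + 1 ≤ J.card := by
    have h1 : (d : ℝ) + 2 ≤ η * a := by
      rw [div_le_iff₀ hη] at g4
      linarith
    have h2 : ((d + 1 : ℕ) : ℝ) ≤ J.card := by push_cast; linarith
    exact_mod_cast h2
  -- the number A
  obtain ⟨P0, hP0def⟩ : ∃ P0, P0 = ∏ j ∈ J, ((x0 : ℂ) - y0 * I - ((Real.pi * j / a : ℝ) : ℂ)) := ⟨_, rfl⟩
  obtain ⟨A, hAdef⟩ : ∃ A, A = Complex.sin (a * (x0 - y0 * I)) * (BB S).eval ((x0 : ℂ) - y0 * I) /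
      ∏ j ∈ J, ((x0 : ℂ) - y0 * I - ((Real.pi * j / a : ℝ) : ℂ)) := ⟨_, rfl⟩
  have hP0ne : P0 ≠ 0 := by
    rw [hP0def]
    intro h
    rw [Finset.prod_eq_zero_iff] at h
    obtain ⟨j, _, hj⟩ := h
    have := congrArg Complex.im hj
    simp [hy.ne'] at this
  have hP0le : ‖P0‖ ≤ Real.exp (ε / 256 * a + 1 / 2) := by
    rw [hP0def, norm_prod]
    have h1 : ∏ j ∈ J, ‖(x0 : ℂ) - y0 * I - ((Real.pi * j / a : ℝ) : ℂ)‖ ≤ ∏ j ∈ J, Real.exp (8 * η ^ 2) := by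
      refine Finset.prod_le_prod (fun _ _ => norm_nonneg _) fun j hj => ?_
      obtain ⟨h1, h2⟩ := hnode j hj
      refine abs_le_of_sq_le_sq' ?_ (Real.exp_nonneg _) |>.2
      have h3 : ‖(x0 : ℂ) - y0 * I - ((Real.pi * j / a : ℝ) : ℂ)‖ ^ 2 = (x0 - Real.pi * j / a) ^ 2 + y0 ^ 2 := by
        rw [← Complex.normSq_eq_norm_sq, Complex.normSq_apply]
        simp
        ring
      rw [h3, ← Real.exp_nat_mul]
      have h4 := Real.add_one_le_exp (((2 : ℕ) : ℝ) * (8 * η ^ 2))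
      have h5 : (x0 - Real.pi * j / a) ^ 2 ≤ 16 * η ^ 2 := by nlinarith
      have h6 : y0 ^ 2 ≤ 1 := by nlinarith
      push_cast at h4 ⊢
      linarith
    refine h1.trans ?_
    rw [Finset.prod_const, ← Real.exp_nat_mul, Real.exp_le_exp, hJcard]
    have h2 := (Nat.ceil_lt_add_one (show 0 ≤ η * a by positivity)).le
    calc (⌈η * a⌉₊ : ℝ) * (8 * η ^ 2) ≤ (η * a + 1) * (8 * η ^ 2) := mul_le_mul_of_nonneg_right h2 (by positivity)
      _ = 8 * (η * η) * η * a + 8 * (η * η) := by ring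
      _ ≤ 8 * (1 / 4 * (1 / 4)) * (ε / 128) * a + 8 * (1 / 4 * (1 / 4)) := by
          have h3 : η * η ≤ 1 / 4 * (1 / 4) := mul_le_mul hη2 hη2 hη.le (by norm_num)
          have h4 : η * η * η ≤ 1 / 4 * (1 / 4) * (ε / 128) := mul_le_mul h3 hη3 hη.le (by norm_num)
          nlinarith [mul_le_mul_of_nonneg_right h4 ha.le]
      _ = _ := by ring
  have hsin : Real.exp (a * y0) / 4 ≤ ‖Complex.sin (a * (x0 - y0 * I))‖ := by
    have h1 := sin_lo (a * ((x0 : ℂ) - y0 * I))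
    have e : ((a : ℂ) * ((x0 : ℂ) - y0 * I)).im = -(a * y0) := by simp
    rw [e, neg_neg] at h1
    refine le_trans ?_ h1
    have h2 : 1 ≤ a * y0 := by rwa [div_le_iff₀ hy] at g5
    have h3 : Real.exp (a * y0) * Real.exp (-(a * y0)) = 1 := by rw [← Real.exp_add]; simp
    have h4 := Real.add_one_le_exp (a * y0)
    have h5 := Real.exp_pos (-(a * y0))
    have h6 : Real.exp (-(a * y0)) ≤ Real.exp (a * y0) / 2 := by
      nlinarith
    linarith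
  have hAlow : Real.exp ((y0 - ε / 4) * a) ≤ ‖A‖ := by
    rw [hAdef, norm_div, norm_mul, ← hP0def, ← hb0, le_div_iff₀ (norm_pos_iff.2 hP0ne)]
    have h1 : 4 * Real.exp (1 / 2) / b0 ≤ Real.exp (ε / 8 * a) := by
      have h2 := Real.add_one_le_exp (ε / 8 * a)
      have h3 : 4 * Real.exp (1 / 2) / b0 ≤ ε / 8 * a := by
        have h4 := mul_le_mul_of_nonneg_left g6 (show (0:ℝ) ≤ ε / 8 by positivity)
        have h5 : ε / 8 * (4 * Real.exp (1 / 2) / b0 * (8 / ε)) = 4 * Real.exp (1 / 2) / b0 := by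
          field_simp
        linarith
      linarith
    rw [div_le_iff₀ hB0] at h1
    calc Real.exp ((y0 - ε / 4) * a) * ‖P0‖ ≤ Real.exp ((y0 - ε / 4) * a) * Real.exp (ε / 256 * a + 1 / 2) :=
          mul_le_mul_of_nonneg_left hP0le (Real.exp_nonneg _)
      _ ≤ Real.exp (a * y0 - ε / 8 * a) * Real.exp (1 / 2) := by
          rw [← Real.exp_add, ← Real.exp_add, Real.exp_le_exp]
          nlinarith
      _ = Real.exp (a * y0) / 4 * (Real.exp (-(ε / 8 * a)) * (4 * Real.exp (1 / 2))) := by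
          rw [sub_eq_add_neg, Real.exp_add]; ring
      _ ≤ Real.exp (a * y0) / 4 * (Real.exp (-(ε / 8 * a)) * (Real.exp (ε / 8 * a) * b0)) :=
          mul_le_mul_of_nonneg_left (mul_le_mul_of_nonneg_left h1 (Real.exp_nonneg _)) (by positivity)
      _ = Real.exp (a * y0) / 4 * b0 := by
          rw [← mul_assoc (Real.exp (-(ε / 8 * a))), ← Real.exp_add]
          simp
      _ ≤ _ := mul_le_mul_of_nonneg_right hsin hB0.le
  have hAne : A ≠ 0 := by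
    intro h
    rw [h, norm_zero] at hAlow
    exact absurd hAlow (not_le.2 (Real.exp_pos _))
  obtain ⟨u, hudef⟩ : ∃ u, u = -(starRingEnd ℂ) A / A := ⟨_, rfl⟩
  have hu1 : ‖u‖ = 1 := by
    rw [hudef, norm_div, norm_neg, RCLike.norm_conj, div_self (norm_ne_zero_iff.2 hAne)]
  obtain ⟨α, β, hα, hβ, hlin⟩ := lin (x0 := x0) hy hu1
  rw [← hC1] at hlin
  have hp : ∀ w : ℂ, ‖(BB S * (C β * X + C α)).eval w‖ ≤ C2 * (1 + ‖w‖) ^ d := by
    intro w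
    rw [eval_mul, eval_add, eval_mul, eval_C, eval_C, eval_X, norm_mul]
    have h1 := BB_norm hR0.le hSR w
    have h2 := hlin w
    rw [add_comm α] at h2
    calc _ ≤ ((1 + R) * (1 + ‖w‖)) ^ S.card * (C1 * (1 + ‖w‖)) := mul_le_mul h1 h2 (norm_nonneg _) (by positivity)
      _ = _ := by rw [hC2, hd, mul_pow]; ring
  refine ⟨J, BB S * (C β * X + C α), ?_, ?_, fun F hF hE => ⟨?_, ?_, ?_, ?_⟩⟩
  · intro j hj
    have h1 := hnode1 j hj
    have h2 : |Real.pi * j / a| ≤ |x0| + 1 := by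
      have := abs_add_le x0 (Real.pi * j / a - x0)
      rw [show x0 + (Real.pi * j / a - x0) = Real.pi * j / a by ring] at this
      linarith
    have hpi := Real.pi_gt_three
    rw [abs_div, abs_mul, abs_of_pos ha, abs_of_pos Real.pi_pos, div_le_iff₀ ha] at h2
    rw [le_div_iff₀ ha] at g7
    have h3 : (j.natAbs : ℝ) = |(j : ℝ)| := by
      rw [Nat.cast_natAbs]; simp
    have h4 : (j.natAbs : ℝ) ≤ n a := by
      rw [h3]
      have := abs_nonneg (j : ℝ)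
      nlinarith
    exact_mod_cast h4
  · refine lt_of_le_of_lt natDegree_mul_le ?_
    rw [BB_deg]
    have := natDegree_linear_le (a := β) (b := α)
    omega
  · intro z hz hzR hz1 hz2
    refine zero_of ha hF hE ?_
    rw [eval_mul, BB_eval, Finset.prod_eq_zero ((hSdef z).2 ⟨⟨hz, hzR⟩, hz1, hz2⟩) (sub_self z), zero_mul]
  · rw [val hy hSc hAdef hAne hudef hα hβ hE]
    have h1 := pow_le_pow_left₀ (Real.exp_nonneg _) hAlow 2
    rw [← Real.exp_nat_mul] at h1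
    have e : ((2 : ℕ) : ℝ) * ((y0 - ε / 4) * a) = (2 * y0 - ε / 2) * a := by push_cast; ring
    rw [e] at h1
    linarith
  · intro x
    have hreal := real_bound ha hF hE (E := Real.exp (ε / 8 * a)) (fun x => by
      have := hA0 a g1 ⌊a * x0 / Real.pi⌋ x
      rwa [← hJdef] at this)
    have h1 := line_bd hC20.le hE (Real.one_le_exp (by positivity)) hreal hnode1 hdK hp x
    rw [← hK1] at h1
    refine h1.trans ?_
    have e : Real.exp (ε / 8 * a) ^ 2 = Real.exp (ε / 4 * a) := by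
      rw [← Real.exp_nat_mul]; congr 1; push_cast; ring
    rw [e]
    refine div_le_div_of_nonneg_right (mul_le_mul_of_nonneg_right (by linarith) (Real.exp_nonneg _)) (by positivity)
  · intro z hz hzR
    have h1 := tail_bd ha hη hC20.le hE hR1 hR2 hnode1 hdK hKa hp z hz hzR
    rw [← hK2] at h1
    refine h1.trans ?_
    refine div_le_div_of_nonneg_right (mul_le_mul_of_nonneg_right (by linarith) (Real.exp_nonneg _)) (by positivity)

end Pool.Agent.Q261.CE.T1
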