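import Pool.Agent.Q240.CE.Stm
import Pool.Agent.Q261.CE.SinPa
import Pool.Agent.Q261.CE.T1c

set_option autoImplicit false

/-! # Project CE: `S_T1` -/

open Polynomial Filter Topology Finset MeasureTheory

namespace Pool.Agent.Q261.CE

open Pool.Agent.Q240.CE Pool.Agent.Q240.CD
open Complex (I)

lemma I_mul_neg (w : ℂ) : I * (-I * w) = w := by
  rw [← mul_assoc, mul_neg, Complex.I_mul_I]
  ring

lemma int_bd {f : ℝ → ℂ} {a x0 M : ℝ} (hf : Y23.Fa a f) (h : ∀ x : ℝ, ‖Y23.TT f (I * x)‖ ^ 2 ≤ M / (1 + (x - x0) ^ 2)) :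
    Y23.N2 f ≤ M / 2 := by
  have hpi := Real.pi_pos
  have h1 := Y23.plancherel hf
  have h2 : Integrable fun x : ℝ => M / (1 + (x - x0) ^ 2) := by
    have := (integrable_inv_one_add_sq.comp_sub_right x0).const_mul M
    refine this.congr (Eventually.of_forall fun x => ?_)
    simp only [div_eq_mul_inv]
  have h3 : ∫ x : ℝ, M / (1 + (x - x0) ^ 2) = M * Real.pi := by
    have e : (fun x : ℝ => M / (1 + (x - x0) ^ 2)) = fun x => M * (fun y : ℝ => (1 + y ^ 2)⁻¹) (x - x0) := by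
      funext x
      simp only [div_eq_mul_inv]
    rw [e, integral_const_mul, integral_sub_right_eq_self (fun y : ℝ => (1 + y ^ 2)⁻¹) x0, integral_univ_inv_one_add_sq]
  have h4 : ∫ t : ℝ, ‖Y23.TT f (t * I)‖ ^ 2 ≤ ∫ x : ℝ, M / (1 + (x - x0) ^ 2) := by
    refine integral_mono (Y23.int_TT_sq hf) h2 fun x => ?_
    have := h x
    rwa [mul_comm I] at this
  rw [h1, h3] at h4
  have h5 : Real.pi * (2 * Y23.N2 f) ≤ Real.pi * M := by linarith
  have := le_of_mul_le_mul_left h5 hpi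
  linarith

theorem t1 (hRat : S_Rat) (hSum : S_SumG) : S_T1 := by
  classical
  intro D n hn ρ0 hρ hre ε hε
  obtain ⟨-, hs2, hfin⟩ := @hSum D
  obtain ⟨x0, hx0⟩ : ∃ x0, x0 = ρ0.im := ⟨_, rfl⟩
  obtain ⟨y0, hy0⟩ : ∃ y0, y0 = ρ0.re - 1 / 2 := ⟨_, rfl⟩
  have hy : 0 < y0 := by rw [hy0]; linarith
  have hy1 : y0 ≤ 1 := by rw [hy0]; exact (le_abs_self _).trans (D.strip ρ0 hρ)
  have hρ' : ρ0 - 1 / 2 = I * (x0 - y0 * I) := by
    rw [hx0, hy0]
    apply Complex.ext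
    · simp
    · simp
  have hZc : ∀ z ∈ {z : ℂ | I * z + 1 / 2 ∈ D.Zs}, (starRingEnd ℂ) z ∈ {z : ℂ | I * z + 1 / 2 ∈ D.Zs} := by
    intro z hz
    have h1 := D.refl _ hz
    have e : 1 - (starRingEnd ℂ) (I * z + 1 / 2) = I * (starRingEnd ℂ) z + 1 / 2 := by
      rw [map_add, map_mul, Complex.conj_I, map_div₀, map_one]
      have : (starRingEnd ℂ) (2 : ℂ) = 2 := Complex.conj_ofNat 2
      rw [this]
      ring
    rw [e] at h1
    exact h1
  have hZf : ∀ T : ℝ, {z : ℂ | z ∈ {z : ℂ | I * z + 1 / 2 ∈ D.Zs} ∧ ‖z‖ ≤ T}.Finite := by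
    intro T
    have hinj : Function.Injective fun z : ℂ => I * z + 1 / 2 := by
      intro z w hzw
      simpa [Complex.I_ne_zero] using hzw
    refine ((hfin T).preimage (f := fun z : ℂ => I * z + 1 / 2) hinj.injOn).subset ?_
    rintro z ⟨h1, h2⟩
    refine ⟨h1, ?_⟩
    have e : I * z + 1 / 2 - 1 / 2 = I * z := by ring
    rw [e, norm_mul, Complex.norm_I, one_mul]
    exact h2
  obtain ⟨R0, hR0, hcore⟩ := T1.core sinPA (x0 := x0) hy hy1 hε n hn {z : ℂ | I * z + 1 / 2 ∈ D.Zs} hZc hZf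
  refine ⟨R0, fun R hR => ?_⟩
  obtain ⟨K, hK, hev⟩ := hcore R hR
  obtain ⟨T2, hT2⟩ : ∃ T2, T2 = ∑' ρ : Y23.G.Zt, (Y23.G.mu (ρ : ℂ) : ℝ) / (1 + ‖(ρ : ℂ) - 1 / 2‖) ^ 2 := ⟨_, rfl⟩
  have hT20 : 0 ≤ T2 := by rw [hT2]; exact tsum_nonneg fun ρ => by positivity
  filter_upwards [hev, eventually_ge_atTop (K / 2 * (8 / ε)), eventually_ge_atTop (K * T2)] with a hmain g1 g2
  obtain ⟨ha, J, p, hJn, hdeg, hmain⟩ := hmain
  obtain ⟨f, hf, hE⟩ := hRat a (n a) J p ha hJn hdeg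
  have hFa : Y23.Fa a f := (Tg_Hn ha hf).1
  have hFc : Continuous fun z : ℂ => Y23.TT f (I * z) := (Y23.differentiable_TT hFa).continuous.comp (by fun_prop)
  obtain ⟨h1, h2, h3, h4⟩ := hmain (fun z => Y23.TT f (I * z)) hFc hE
  obtain ⟨c, hc⟩ : ∃ c : ℝ, c = Real.exp (-(ε / 4 * a)) := ⟨_, rfl⟩
  have hc0 : 0 < c := by rw [hc]; exact Real.exp_pos _
  have hcn : ‖(c : ℂ)‖ = c := by rw [Complex.norm_real, Real.norm_eq_abs, abs_of_pos hc0]
  have hc1 : c ≤ 1 := by rw [hc]; exact Real.exp_le_one_iff.2 (by nlinarith [mul_pos hε ha])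
  have hc2 : c ^ 2 = Real.exp (-(ε / 2 * a)) := by
    rw [hc, ← Real.exp_nat_mul]
    congr 1
    push_cast
    ring
  -- the pointwise bound at the zeros
  have hpt : ∀ ρ : Y23.G.Zt, R ≤ ‖(ρ : ℂ) - 1 / 2‖ →
      (Y23.G.mu (ρ : ℂ) : ℝ) * ‖Y23.TT (fun x => (c : ℂ) * f x) ((ρ : ℂ) - 1 / 2)‖ ^ 2 ≤
        K * Real.exp (-6 * a) * ((Y23.G.mu (ρ : ℂ) : ℝ) / (1 + ‖(ρ : ℂ) - 1 / 2‖) ^ 2) := by
    intro ρ hρR
    have hn1 : ‖-I * ((ρ : ℂ) - 1 / 2)‖ = ‖(ρ : ℂ) - 1 / 2‖ := by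
      rw [norm_mul, norm_neg, Complex.norm_I, one_mul]
    have him : |(-I * ((ρ : ℂ) - 1 / 2)).im| ≤ 1 := by
      have e : (-I * ((ρ : ℂ) - 1 / 2)).im = -((ρ : ℂ).re - 1 / 2) := by simp
      rw [e, abs_neg]
      exact D.strip ρ ρ.2
    have h5 := h4 (-I * ((ρ : ℂ) - 1 / 2)) him (by rw [hn1]; exact hρR)
    rw [I_mul_neg, hn1] at h5
    rw [Y23.TT_smul, norm_mul, hcn, mul_pow]
    have h6 : c ^ 2 * ‖Y23.TT f ((ρ : ℂ) - 1 / 2)‖ ^ 2 ≤ 1 * (K * Real.exp (-6 * a) / (1 + ‖(ρ : ℂ) - 1 / 2‖) ^ 2) :=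
      mul_le_mul (pow_le_one₀ hc0.le hc1) h5 (by positivity) zero_le_one
    have h7 := mul_le_mul_of_nonneg_left h6 (Nat.cast_nonneg (α := ℝ) (Y23.G.mu (ρ : ℂ)))
    refine h7.trans (le_of_eq ?_)
    rw [one_mul]
    ring
  refine ⟨fun x => (c : ℂ) * f x, Tg_smul hf _, ?_, ?_, ?_, ?_, ?_⟩
  · intro s hs hsR hs1 hs2'
    have h5 := h1 (-I * (s - 1 / 2)) (by
      show I * (-I * (s - 1 / 2)) + 1 / 2 ∈ D.Zs
      rw [I_mul_neg]
      simpa using hs) (by rwa [norm_mul, norm_neg, Complex.norm_I, one_mul]) (by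
      intro h
      apply hs1
      have h6 := congrArg (fun z => I * z) h
      rw [I_mul_neg, ← hρ'] at h6
      linear_combination h6) (by
      intro h
      apply hs2'
      have h6 := congrArg (fun z => I * z) h
      rw [I_mul_neg] at h6
      have h7 := congrArg (starRingEnd ℂ) hρ'
      rw [map_sub, map_mul, T1.conj_z0, Complex.conj_I, map_div₀, map_one, Complex.conj_ofNat 2] at h7
      linear_combination h6 + h7)
    rw [I_mul_neg] at h5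
    rw [Y23.TT_smul, h5, mul_zero]
  · have e1 : Y23.G.GG (fun x => (c : ℂ) * f x) (fun x => (c : ℂ) * f x) (ρ0 - 1 / 2) =
        ((c ^ 2 : ℝ) : ℂ) * (Y23.TT f (I * (x0 - y0 * I)) * (starRingEnd ℂ) (Y23.TT f (I * (x0 + y0 * I)))) := by
      unfold Y23.G.GG
      rw [Y23.TT_smul, Y23.TT_smul, hρ', map_mul, map_mul, Complex.conj_ofReal, T1.conj_z0, Complex.conj_I, neg_mul, neg_neg]
      push_cast
      ring
    rw [e1, Complex.re_ofReal_mul, hc2]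
    have h5 := mul_le_mul_of_nonneg_left h2 (Real.exp_nonneg (-(ε / 2 * a)))
    refine h5.trans (le_of_eq ?_)
    rw [mul_neg, ← Real.exp_add, ← hy0]
    congr 2
    ring
  · rw [Y23.N2_smul, hcn, hc2]
    have h5 := int_bd hFa h3
    have h6 : K / 2 ≤ Real.exp (ε / 8 * a) := by
      have h7 := Real.add_one_le_exp (ε / 8 * a)
      have h8 := mul_le_mul_of_nonneg_left g1 (show (0:ℝ) ≤ ε / 8 by positivity)
      have h9 : ε / 8 * (K / 2 * (8 / ε)) = K / 2 := by field_simp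
      linarith
    calc Real.exp (-(ε / 2 * a)) * Y23.N2 f ≤ Real.exp (-(ε / 2 * a)) * (K / 2 * Real.exp (ε / 4 * a)) := by
          refine mul_le_mul_of_nonneg_left (h5.trans (le_of_eq ?_)) (Real.exp_nonneg _)
          ring
      _ ≤ Real.exp (-(ε / 2 * a)) * (Real.exp (ε / 8 * a) * Real.exp (ε / 4 * a)) :=
          mul_le_mul_of_nonneg_left (mul_le_mul_of_nonneg_right h6 (Real.exp_nonneg _)) (Real.exp_nonneg _)
      _ = Real.exp (-(ε / 8 * a)) := by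
          rw [← Real.exp_add, ← Real.exp_add]
          congr 1
          ring
  · refine Summable.of_norm_bounded_eventually (g := fun ρ : Y23.G.Zt => K * Real.exp (-6 * a) *
      ((Y23.G.mu (ρ : ℂ) : ℝ) / (1 + ‖(ρ : ℂ) - 1 / 2‖) ^ 2)) (hs2.mul_left _) ?_
    have hfin2 : {ρ : Y23.G.Zt | ¬ (R ≤ ‖(ρ : ℂ) - 1 / 2‖)}.Finite := by
      refine ((hfin R).preimage (f := fun ρ : Y23.G.Zt => (ρ : ℂ)) Subtype.val_injective.injOn).subset ?_
      intro ρ hρR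
      exact ⟨ρ.2, (not_le.1 hρR).le⟩
    have h5 : ∀ᶠ ρ : Y23.G.Zt in cofinite, R ≤ ‖(ρ : ℂ) - 1 / 2‖ := hfin2
    filter_upwards [h5] with ρ hρR
    rw [Real.norm_of_nonneg (by positivity)]
    exact hpt ρ hρR
  · have h5 : ∀ ρ : Y23.G.Zt, (if R < ‖(ρ : ℂ) - 1 / 2‖ then (Y23.G.mu (ρ : ℂ) : ℝ) *
        ‖Y23.TT (fun x => (c : ℂ) * f x) ((ρ : ℂ) - 1 / 2)‖ ^ 2 else 0) ≤
        K * Real.exp (-6 * a) * ((Y23.G.mu (ρ : ℂ) : ℝ) / (1 + ‖(ρ : ℂ) - 1 / 2‖) ^ 2) := by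
      intro ρ
      by_cases h : R < ‖(ρ : ℂ) - 1 / 2‖
      · rw [if_pos h]
        exact hpt ρ h.le
      · rw [if_neg h]
        positivity
    have h6 : ∀ ρ : Y23.G.Zt, 0 ≤ (if R < ‖(ρ : ℂ) - 1 / 2‖ then (Y23.G.mu (ρ : ℂ) : ℝ) *
        ‖Y23.TT (fun x => (c : ℂ) * f x) ((ρ : ℂ) - 1 / 2)‖ ^ 2 else 0) := by
      intro ρ
      split_ifs
      · positivity
      · exact le_rfl
    have h7 := hs2.mul_left (K * Real.exp (-6 * a))
    have h8 := (Summable.of_nonneg_of_le h6 h5 h7).tsum_le_tsum h5 h7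
    refine h8.trans ?_
    rw [tsum_mul_left, ← hT2]
    have h9 : K * T2 ≤ Real.exp (5 * a) := by
      have := Real.add_one_le_exp (5 * a)
      linarith
    calc K * Real.exp (-6 * a) * T2 = K * T2 * Real.exp (-6 * a) := by ring
      _ ≤ Real.exp (5 * a) * Real.exp (-6 * a) := mul_le_mul_of_nonneg_right h9 (Real.exp_nonneg _)
      _ = Real.exp (-a) := by
          rw [← Real.exp_add]
          congr 1
          ring

end Pool.Agent.Q261.CE
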